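import Pool.Agent.K7.H32.LV.Low

/-! # Project LV: the effective bound of the exceptional primes -/

set_option autoImplicit false

namespace Pool.Agent.K7.H32.LV

open Finset Matrix Pool.Agent.H550R3.Jones
open scoped Real

/-- NRI: the norm is an integer -/
def S_NRI : Prop := ∀ (n : ℕ) (P : Polynomial ℤ), 1 ≤ n →
  ∃ c : ℤ, ∏ z ∈ primitiveRoots n ℂ, Polynomial.aeval z P = (c : ℂ)

/-- the upper bound of the norm -/
theorem t_up (h4 : S_ENT) (h5 : S_SUM) (h6 : S_AVZ) (N n : ℕ) (w : List (ℕ × Bool)) (hN : 2 ≤ N)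
    (hpos : ∀ z ∈ primitiveRoots (2 * N) ℂ, 0 < ‖cjones N n w z‖) :
    ∑ z ∈ primitiveRoots (2 * N) ℂ, Real.log ‖cjones N n w z‖ ≤
      22 * (n + w.length) * N * (1 + Real.log N) ^ 2 := by
  obtain ⟨M, hM, hsum⟩ := h6 N hN
  have hN1 : 1 ≤ N := by omega
  have hNr : (1 : ℝ) ≤ N := by exact_mod_cast hN1
  have hlog : 0 ≤ Real.log N := Real.log_nonneg hNr
  set L : ℝ := (w.length : ℝ) with hL
  have hL0 : 0 ≤ L := Nat.cast_nonneg _
  have hn0 : (0 : ℝ) ≤ n := Nat.cast_nonneg _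
  have hmem : ∀ z ∈ primitiveRoots (2 * N) ℂ, IsPrimitiveRoot z (2 * N) := fun z hz =>
    isPrimitiveRoot_of_mem_primitiveRoots hz
  set U : ℂ → ℝ := fun z => (n + L) * Real.log N + 5 * L * M z with hU
  have hUp : ∀ z ∈ primitiveRoots (2 * N) ℂ, Real.log ‖cjones N n w z‖ ≤ U z := by
    intro z hz
    have hzp := hmem z hz
    have hz1 : ‖z‖ = 1 := hzp.norm'_eq_one (by omega)
    have hM0 := (hM z hz).1
    have hE : 1 ≤ Real.exp (5 * M z) := Real.one_le_exp (by positivity)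
    have h7 := h4 N z (M z) hN1 hzp.pow_eq_one (hM z hz).2
    have h8 := h5 N n w z _ hN1 hz1 hE h7
    have h9 := Real.log_le_log (hpos z hz) h8
    refine h9.trans (le_of_eq ?_)
    rw [Real.log_mul (by positivity) (by positivity), Real.log_pow, Real.log_pow,
      Real.log_mul (by positivity) (by positivity), Real.log_exp, hU]
    ring
  refine (Finset.sum_le_sum hUp).trans ?_
  have hcard : ((primitiveRoots (2 * N) ℂ).card : ℝ) ≤ 2 * N := by
    have h13 : (primitiveRoots (2 * N) ℂ).card = Nat.totient (2 * N) :=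
      Complex.card_primitiveRoots (2 * N)
    rw [h13]
    have := Nat.totient_le (2 * N)
    exact_mod_cast this
  rw [hU, Finset.sum_add_distrib, Finset.sum_const, nsmul_eq_mul, ← Finset.mul_sum]
  have h14 : ((primitiveRoots (2 * N) ℂ).card : ℝ) * ((n + L) * Real.log N) ≤
      2 * N * ((n + L) * Real.log N) :=
    mul_le_mul_of_nonneg_right hcard (by positivity)
  have h15 : 5 * L * ∑ z ∈ primitiveRoots (2 * N) ℂ, M z ≤
      5 * L * (4 * N * (1 + Real.log N) ^ 2) := mul_le_mul_of_nonneg_left hsum (by positivity)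
  have h16 : Real.log N ≤ (1 + Real.log N) ^ 2 := by nlinarith
  have h17 : 2 * (N : ℝ) * ((n + L) * Real.log N) ≤
      2 * N * ((n + L) * (1 + Real.log N) ^ 2) := by gcongr
  have h18 : 0 ≤ (n : ℝ) * N * (1 + Real.log N) ^ 2 := by positivity
  nlinarith

theorem t_bnd (h1 : S_CMP) (h2 : S_POL) (h3 : S_DIG) (hc : S_CYC) (hn : S_NRM) (hi : S_NRI)
    (h4 : S_ENT) (h5 : S_SUM) (h6 : S_AVZ) (n : ℕ) (w : List (ℕ × Bool)) (hK : IsKnot n w)
    (m p a : ℕ) (hm : 2 ≤ m) (hp : p.Prime) (hpm : ¬ p ∣ 2 * m)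
    (h0 : cjones (m * p ^ a) n w (rt (m * p ^ a)) = 0) (hne : cjones m n w (rt m) ≠ 0) :
    Nat.totient (2 * m) * Real.log p ≤ 22 * (n + w.length) * m * (1 + Real.log m) ^ 2 := by
  have hm1 : 1 ≤ m := by omega
  have hp2 : p ≠ 2 := by
    rintro rfl
    exact hpm (dvd_mul_right _ _)
  have hmem : ∀ z ∈ primitiveRoots (2 * m) ℂ, IsPrimitiveRoot z (2 * m) := fun z hz =>
    isPrimitiveRoot_of_mem_primitiveRoots hz
  have ha : 0 < a := by
    rcases Nat.eq_zero_or_pos a with ha | ha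
    · subst ha
      rw [pow_zero, mul_one] at h0
      exact absurd h0 hne
    · exact ha
  -- all conjugates are divisible by `p`
  have hdiv : ∀ z ∈ primitiveRoots (2 * m) ℂ, IsIntegral ℤ (cjones m n w z / (p : ℂ)) := by
    intro z hz
    have hy := hmem z hz
    obtain ⟨c, hcc⟩ : ∃ c, p ^ a = 2 * c + 1 := by
      have : Odd (p ^ a) := (hp.odd_of_ne_two hp2).pow
      exact this
    have h6 := key h1 h2 h3 hc n w hK m p a (2 * m) z hm1 hp (by omega) hpm hy
      (fun hy0 => ?_) ⟨a, ha, by ring⟩ h0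
    · obtain ⟨hy0, h7⟩ := h6
      rw [h1 m n w z (prim_adm hm1 hy)]
      exact h7
    · have h9 : (Units.mk0 z hy0) ^ (2 * m) = 1 := by
        ext
        rw [Units.val_pow_eq_pow_val, Units.val_mk0, Units.val_one, hy.pow_eq_one]
      refine ⟨h9, ?_, fun j hj hjm => ?_⟩
      · rw [hcc, show m * (2 * c + 1 - 1) = 2 * m * c by
          rw [Nat.add_sub_cancel]; ring, pow_mul, h9, one_pow]
      · have h10 := (prim_adm hm1 hy).2 j hj hjm
        unfold br at h10
        unfold bR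
        rw [Units.val_zpow_eq_zpow_val, Units.val_zpow_eq_zpow_val, Units.val_mk0]
        exact h10
  obtain ⟨P, M0, hP⟩ := h2 m n w
  obtain ⟨c, hcP⟩ := hi (2 * m) P (by omega)
  have hval : ∀ z ∈ primitiveRoots (2 * m) ℂ, ‖Polynomial.aeval z P‖ = ‖cjones m n w z‖ :=
    fun z hz => norm_eval h1 hP hm1 (hmem z hz)
  have hrt : rt m ∈ primitiveRoots (2 * m) ℂ :=
    (mem_primitiveRoots (by omega)).2 (rt_prim hm1)
  have hprod : 1 ≤ ∏ z ∈ primitiveRoots (2 * m) ℂ, ‖Polynomial.aeval z P‖ := by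
    refine hn (2 * m) P (by omega) ⟨rt m, hrt, ?_⟩
    rw [← norm_ne_zero_iff, hval _ hrt, norm_ne_zero_iff]
    exact hne
  have hcn : ((c.natAbs : ℕ) : ℝ) = ∏ z ∈ primitiveRoots (2 * m) ℂ, ‖cjones m n w z‖ := by
    rw [← Finset.prod_congr rfl hval, ← norm_prod, hcP, Complex.norm_intCast, Nat.cast_natAbs]
    simp
  have hc0 : c ≠ 0 := by
    rintro rfl
    rw [Finset.prod_congr rfl hval, ← hcn] at hprod
    norm_num at hprod
  have hpos : ∀ z ∈ primitiveRoots (2 * m) ℂ, 0 < ‖cjones m n w z‖ := by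
    intro z hz
    rcases (norm_nonneg (cjones m n w z)).lt_or_eq with h | h
    · exact h
    · rw [Finset.prod_congr rfl hval, Finset.prod_eq_zero hz h.symm] at hprod
      linarith
  have hcardφ : (primitiveRoots (2 * m) ℂ).card = Nat.totient (2 * m) :=
    Complex.card_primitiveRoots (2 * m)
  -- `c / p ^ φ` is an algebraic integer
  have hint : IsIntegral ℤ ((c : ℂ) / ((p ^ Nat.totient (2 * m) : ℕ) : ℂ)) := by
    have h7 : (c : ℂ) / ((p ^ Nat.totient (2 * m) : ℕ) : ℂ) =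
        ∏ z ∈ primitiveRoots (2 * m) ℂ, (cjones m n w z / (p : ℂ) * z ^ M0) := by
      rw [← hcP, ← hcardφ]
      push_cast
      rw [← Finset.prod_const, ← Finset.prod_div_distrib]
      refine Finset.prod_congr rfl fun z hz => ?_
      have hz0 : z ≠ 0 := (hmem z hz).ne_zero (by omega)
      have h8 := hP ℂ (Units.mk0 z hz0)
      rw [Units.val_mk0, ← h1 m n w z (prim_adm hm1 (hmem z hz))] at h8
      rw [← h8]
      ring
    rw [h7]
    exact IsIntegral.prod _ fun z hz =>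
      (hdiv z hz).mul (((hmem z hz).isIntegral (by omega)).pow _)
  have hdvd : ((p ^ Nat.totient (2 * m) : ℕ) : ℤ) ∣ c := by
    set q : ℕ := p ^ Nat.totient (2 * m) with hq
    have hq0 : (q : ℚ) ≠ 0 := by
      have : q ≠ 0 := pow_ne_zero _ hp.ne_zero
      exact_mod_cast this
    have h8 : IsIntegral ℤ (algebraMap ℚ ℂ ((c : ℚ) / q)) := by
      convert hint using 1
      simp
    have h9 := (isIntegral_algebraMap_iff (algebraMap ℚ ℂ).injective).1 h8
    obtain ⟨d, hd⟩ := (IsIntegrallyClosed.isIntegral_iff (R := ℤ) (K := ℚ)).1 h9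
    refine ⟨d, ?_⟩
    have h10 : (d : ℚ) = (c : ℚ) / q := by simpa using hd
    have h11 : (c : ℚ) = q * d := by rw [h10]; field_simp
    exact_mod_cast h11
  have hle : p ^ Nat.totient (2 * m) ≤ c.natAbs :=
    Nat.le_of_dvd (Int.natAbs_pos.2 hc0) (Int.natCast_dvd.1 hdvd)
  have hle' : ((p : ℝ)) ^ Nat.totient (2 * m) ≤
      ∏ z ∈ primitiveRoots (2 * m) ℂ, ‖cjones m n w z‖ := by
    rw [← hcn]
    exact_mod_cast hle
  have hp0 : (0 : ℝ) < p := by exact_mod_cast hp.pos
  have h20 := Real.log_le_log (pow_pos hp0 _) hle'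
  rw [Real.log_pow, Real.log_prod (fun z hz => (hpos z hz).ne')] at h20
  exact h20.trans (t_up h4 h5 h6 m n w hm hpos)

end Pool.Agent.K7.H32.LV
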