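import Pool.Agent.K7.H32.LV.Stm

/-! # Project LV: assembly of the lower bound and of the non-vanishing -/

set_option autoImplicit false

namespace Pool.Agent.K7.H32.LV

open Finset Matrix Pool.Agent.H550R3.Jones
open scoped Real

lemma rt_prim {N : ℕ} (hN : 1 ≤ N) : IsPrimitiveRoot (rt N) (2 * N) := by
  have h := Complex.isPrimitiveRoot_exp (2 * N) (by omega)
  have e : rt N = Complex.exp (2 * π * Complex.I / ((2 * N : ℕ) : ℂ)) := by
    unfold rt
    congr 1
    have : (N : ℂ) ≠ 0 := by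
      have : N ≠ 0 := by omega
      exact_mod_cast this
    push_cast
    field_simp
  rw [e]
  exact h

lemma prim_adm {N : ℕ} (hN : 1 ≤ N) {z : ℂ} (hz : IsPrimitiveRoot z (2 * N)) : Adm N z := by
  have h0 : z ≠ 0 := hz.ne_zero (by omega)
  refine ⟨h0, fun k hk hkN h => ?_⟩
  unfold br at h
  have h1 : z ^ (k : ℤ) = z ^ (-(k : ℤ)) := sub_eq_zero.1 h
  have h2 : z ^ (2 * k) = 1 := by
    have : z ^ (k : ℤ) * z ^ (k : ℤ) = 1 := by
      nth_rewrite 2 [h1]
      rw [← zpow_add₀ h0]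
      simp
    rw [two_mul, pow_add]
    simpa using this
  have h3 := hz.dvd_of_pow_eq_one _ h2
  have := Nat.le_of_dvd (by omega) h3
  omega

lemma norm_eval (h1 : S_CMP) {N n M : ℕ} {w : List (ℕ × Bool)} {P : Polynomial ℤ}
    (hP : ∀ (R : Type) [CommRing R] (u : Rˣ), JR N n w u * (u : R) ^ M = Polynomial.aeval (u : R) P)
    (hN : 1 ≤ N) {z : ℂ} (hz : IsPrimitiveRoot z (2 * N)) :
    ‖Polynomial.aeval z P‖ = ‖cjones N n w z‖ := by
  have ha := prim_adm hN hz
  have h2 := hP ℂ (Units.mk0 z ha.1)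
  rw [← h1 N n w z ha, Units.val_mk0] at h2
  rw [← h2, norm_mul, norm_pow, hz.norm'_eq_one (by omega), one_pow, mul_one]

theorem t_low (h1 : S_CMP) (h2 : S_POL) (h3 : S_NRM) (h4 : S_ENT) (h5 : S_SUM) (h6 : S_AVZ) :
    S_LOW := by
  intro N n w hN hne
  obtain ⟨P, M0, hP⟩ := h2 N n w
  obtain ⟨M, hM, hsum⟩ := h6 N hN
  have hN1 : 1 ≤ N := by omega
  have hNr : (1 : ℝ) ≤ N := by exact_mod_cast hN1
  have hlog : 0 ≤ Real.log N := Real.log_nonneg hNr
  set L : ℝ := (w.length : ℝ) with hL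
  have hL0 : 0 ≤ L := Nat.cast_nonneg _
  have hn0 : (0 : ℝ) ≤ n := Nat.cast_nonneg _
  have hmem : ∀ z ∈ primitiveRoots (2 * N) ℂ, IsPrimitiveRoot z (2 * N) := fun z hz =>
    isPrimitiveRoot_of_mem_primitiveRoots hz
  have hrt : rt N ∈ primitiveRoots (2 * N) ℂ :=
    (mem_primitiveRoots (by omega)).2 (rt_prim hN1)
  have hval : ∀ z ∈ primitiveRoots (2 * N) ℂ, ‖Polynomial.aeval z P‖ = ‖cjones N n w z‖ :=
    fun z hz => norm_eval h1 hP hN1 (hmem z hz)
  have hprod : 1 ≤ ∏ z ∈ primitiveRoots (2 * N) ℂ, ‖cjones N n w z‖ := by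
    rw [← Finset.prod_congr rfl hval]
    refine h3 (2 * N) P (by omega) ⟨rt N, hrt, ?_⟩
    rw [← norm_ne_zero_iff, hval _ hrt, norm_ne_zero_iff]
    exact hne
  have hpos : ∀ z ∈ primitiveRoots (2 * N) ℂ, 0 < ‖cjones N n w z‖ := by
    intro z hz
    rcases (norm_nonneg (cjones N n w z)).lt_or_eq with h | h
    · exact h
    · rw [Finset.prod_eq_zero hz h.symm] at hprod
      linarith
  -- the upper bound at the conjugates
  set U : ℂ → ℝ := fun z => (n + L) * Real.log N + 5 * L * M z with hU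
  have hUp : ∀ z ∈ primitiveRoots (2 * N) ℂ, Real.log ‖cjones N n w z‖ ≤ U z := by
    intro z hz
    have hzp := hmem z hz
    have hz1 : ‖z‖ = 1 := hzp.norm'_eq_one (by omega)
    have hM0 := (hM z hz).1
    have hE : 1 ≤ Real.exp (5 * M z) := Real.one_le_exp (by positivity)
    have h7 := h4 N z (M z) hN1 hzp.pow_eq_one (hM z hz).2
    have h8 := h5 N n w z _ hN1 hz1 hE h7
    have h9 := Real.log_le_log (hpos z hz) h8
    refine h9.trans (le_of_eq ?_)
    rw [Real.log_mul (by positivity) (by positivity), Real.log_pow, Real.log_pow,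
      Real.log_mul (by positivity) (by positivity), Real.log_exp, hU]
    ring
  have hU0 : ∀ z ∈ primitiveRoots (2 * N) ℂ, 0 ≤ U z := by
    intro z hz
    have hM0 := (hM z hz).1
    rw [hU]; positivity
  have hsumlog : 0 ≤ ∑ z ∈ primitiveRoots (2 * N) ℂ, Real.log ‖cjones N n w z‖ := by
    rw [← Real.log_prod (fun z hz => (hpos z hz).ne')]
    exact Real.log_nonneg hprod
  have h10 : 0 ≤ Real.log ‖cjones N n w (rt N)‖ + ∑ z ∈ primitiveRoots (2 * N) ℂ, U z := by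
    rw [← Finset.add_sum_erase _ _ hrt] at hsumlog
    have h11 : ∑ z ∈ (primitiveRoots (2 * N) ℂ).erase (rt N), Real.log ‖cjones N n w z‖ ≤
        ∑ z ∈ (primitiveRoots (2 * N) ℂ).erase (rt N), U z :=
      Finset.sum_le_sum fun z hz => hUp z (Finset.mem_of_mem_erase hz)
    have h12 : ∑ z ∈ (primitiveRoots (2 * N) ℂ).erase (rt N), U z ≤
        ∑ z ∈ primitiveRoots (2 * N) ℂ, U z :=
      Finset.sum_le_sum_of_subset_of_nonneg (Finset.erase_subset _ _) fun z hz _ => hU0 z hz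
    linarith
  have hcard : ((primitiveRoots (2 * N) ℂ).card : ℝ) ≤ 2 * N := by
    have h13 : (primitiveRoots (2 * N) ℂ).card = Nat.totient (2 * N) :=
      Complex.card_primitiveRoots (2 * N)
    rw [h13]
    have := Nat.totient_le (2 * N)
    exact_mod_cast this
  have hUs : ∑ z ∈ primitiveRoots (2 * N) ℂ, U z ≤
      22 * (n + L) * N * (1 + Real.log N) ^ 2 := by
    rw [hU, Finset.sum_add_distrib, Finset.sum_const, nsmul_eq_mul, ← Finset.mul_sum]
    have h14 : ((primitiveRoots (2 * N) ℂ).card : ℝ) * ((n + L) * Real.log N) ≤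
        2 * N * ((n + L) * Real.log N) :=
      mul_le_mul_of_nonneg_right hcard (by positivity)
    have h15 : 5 * L * ∑ z ∈ primitiveRoots (2 * N) ℂ, M z ≤
        5 * L * (4 * N * (1 + Real.log N) ^ 2) := mul_le_mul_of_nonneg_left hsum (by positivity)
    have h16 : Real.log N ≤ (1 + Real.log N) ^ 2 := by nlinarith
    have h17 : 2 * (N : ℝ) * ((n + L) * Real.log N) ≤
        2 * N * ((n + L) * (1 + Real.log N) ^ 2) := by gcongr
    have h18 : 0 ≤ (n : ℝ) * N * (1 + Real.log N) ^ 2 := by positivity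
    nlinarith
  rw [hL] at hUs
  linarith

/-! ### non-vanishing -/

lemma key (h1 : S_CMP) (h2 : S_POL) (h3 : S_DIG) (h5 : S_CYC) (n : ℕ) (w : List (ℕ × Bool))
    (hK : IsKnot n w) (m p a k : ℕ) (y : ℂ) (hm : 1 ≤ m) (hp : p.Prime) (hk : 1 ≤ k)
    (hpk : ¬ p ∣ k) (hy : IsPrimitiveRoot y k)
    (hu : ∀ hy : y ≠ 0, (Units.mk0 y hy) ^ (2 * m) = 1 ∧
      (Units.mk0 y hy) ^ (m * (p ^ a - 1)) = 1 ∧
        ∀ j : ℕ, 0 < j → j < m → bR (Units.mk0 y hy) j ≠ 0)
    (hb : ∃ b : ℕ, 1 ≤ b ∧ 2 * (m * p ^ a) = k * p ^ b)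
    (h0 : cjones (m * p ^ a) n w (rt (m * p ^ a)) = 0) :
    ∃ hy : y ≠ 0, IsIntegral ℤ (JR m n w (Units.mk0 y hy) / (p : ℂ)) := by
  obtain ⟨b, hb1, hb2⟩ := hb
  have hy0 : y ≠ 0 := hy.ne_zero (by omega)
  refine ⟨hy0, ?_⟩
  obtain ⟨P, M0, hP⟩ := h2 (m * p ^ a) n w
  have hN1 : 1 ≤ m * p ^ a := Nat.mul_pos hm (pow_pos hp.pos _)
  have hz := rt_prim hN1
  have hval := norm_eval h1 hP hN1 hz
  rw [h0, norm_zero, norm_eq_zero] at hval
  rw [hb2] at hz
  have h6 := h5 k p b P _ y hk hp hpk hb1 hz hy hval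
  obtain ⟨hu1, hu2, hu3⟩ := hu hy0
  have h7 := hP ℂ (Units.mk0 y hy0)
  rw [h3 m (p ^ a) n w hK hm (pow_pos hp.pos _) ℂ (Units.mk0 y hy0) hu1 hu2 hu3,
    Units.val_mk0] at h7
  rw [← h7] at h6
  have hyi : IsIntegral ℤ y⁻¹ := (hy.inv).isIntegral (by omega)
  have h8 := h6.mul (hyi.pow M0)
  have h9 : JR m n w (Units.mk0 y hy0) * y ^ M0 / (p : ℂ) * y⁻¹ ^ M0 =
      JR m n w (Units.mk0 y hy0) / (p : ℂ) := by
    rw [inv_pow]
    field_simp
  rw [h9] at h8
  exact h8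

lemma int_aeval {x : ℂ} (hx : IsIntegral ℤ x) (P : Polynomial ℤ) :
    IsIntegral ℤ (Polynomial.aeval x P) := by
  have h : Algebra.adjoin ℤ {x} ≤ integralClosure ℤ ℂ :=
    Algebra.adjoin_le (Set.singleton_subset_iff.2 hx)
  exact h (Polynomial.aeval_mem_adjoin_singleton ℤ x)

lemma coeff_ne {x : ℂ} (hx : IsIntegral ℤ x) (h0 : x ≠ 0) : (minpoly ℤ x).coeff 0 ≠ 0 := by
  intro hc
  have e : (minpoly ℤ x).divX * Polynomial.X = minpoly ℤ x := by
    have := Polynomial.divX_mul_X_add (minpoly ℤ x)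
    rwa [hc, Polynomial.C_0, add_zero] at this
  have hm : (minpoly ℤ x).Monic := minpoly.monic hx
  have hm2 : (minpoly ℤ x).divX.Monic := by
    rw [← e] at hm
    exact Polynomial.Monic.of_mul_monic_right Polynomial.monic_X hm
  have h1 : Polynomial.aeval x (minpoly ℤ x).divX = 0 := by
    have h2 : Polynomial.aeval x (minpoly ℤ x) = 0 := minpoly.aeval ℤ x
    rw [← e, map_mul, Polynomial.aeval_X] at h2
    exact (mul_eq_zero.1 h2).resolve_right h0
  have h3 := minpoly.min ℤ x hm2 h1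
  have h4 : (minpoly ℤ x).degree = (minpoly ℤ x).divX.degree + 1 := by
    conv_lhs => rw [← e]
    rw [Polynomial.degree_mul, Polynomial.degree_X]
  rw [h4, Polynomial.degree_eq_natDegree hm2.ne_zero] at h3
  norm_cast at h3
  omega

/-- a rational number `1 / p` is not integral -/
lemma not_int {p : ℕ} (hp : p.Prime) (c : ℤ) (h : IsIntegral ℤ ((c : ℂ) / (p : ℂ))) :
    (p : ℤ) ∣ c := by
  have h8 : IsIntegral ℤ (algebraMap ℚ ℂ ((c : ℚ) / p)) := by
    convert h using 1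
    simp
  have h9 := (isIntegral_algebraMap_iff (algebraMap ℚ ℂ).injective).1 h8
  obtain ⟨d, hd⟩ := (IsIntegrallyClosed.isIntegral_iff (R := ℤ) (K := ℚ)).1 h9
  refine ⟨d, ?_⟩
  have hp0 : (p : ℚ) ≠ 0 := by exact_mod_cast hp.ne_zero
  have h10 : (d : ℚ) = (c : ℚ) / p := by simpa using hd
  have h11 : (c : ℚ) = p * d := by rw [h10]; field_simp
  exact_mod_cast h11

theorem t_int (h1 : S_CMP) (h2 : S_POL) (h3 : S_DIG) (h5 : S_CYC) (n : ℕ) (w : List (ℕ × Bool))
    (hK : IsKnot n w) (m p a : ℕ) (hm : 1 ≤ m) (hp : p.Prime) (hpm : ¬ p ∣ 2 * m)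
    (h0 : cjones (m * p ^ a) n w (rt (m * p ^ a)) = 0) :
    IsIntegral ℤ (cjones m n w (rt m) / (p : ℂ)) := by
  have hy := rt_prim hm
  have hp2 : p ≠ 2 := by
    rintro rfl
    exact hpm (dvd_mul_right _ _)
  obtain ⟨c, hc⟩ : ∃ c, p ^ a = 2 * c + 1 := by
    have : Odd (p ^ a) := (hp.odd_of_ne_two hp2).pow
    exact this
  rcases Nat.eq_zero_or_pos a with ha | ha
  · subst ha
    rw [pow_zero, mul_one] at h0
    rw [h0, zero_div]
    exact isIntegral_zero
  · have h6 := key h1 h2 h3 h5 n w hK m p a (2 * m) (rt m) hm hp (by omega) hpm hy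
      (fun hy0 => ?_) ⟨a, ha, by ring⟩ h0
    · obtain ⟨hy0, h7⟩ := h6
      have h8 := h1 m n w (rt m) (prim_adm hm hy)
      rw [h8]
      exact h7
    · have h9 : (Units.mk0 (rt m) hy0) ^ (2 * m) = 1 := by
        ext
        rw [Units.val_pow_eq_pow_val, Units.val_mk0, Units.val_one, hy.pow_eq_one]
      refine ⟨h9, ?_, fun j hj hjm => ?_⟩
      · rw [hc, show m * (2 * c + 1 - 1) = 2 * m * c by
          rw [Nat.add_sub_cancel]; ring, pow_mul, h9, one_pow]
      · have h10 := (prim_adm hm hy).2 j hj hjm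
        unfold br at h10
        unfold bR
        rw [Units.val_zpow_eq_zpow_val, Units.val_zpow_eq_zpow_val, Units.val_mk0]
        exact h10

theorem t_pp (h1 : S_CMP) (h2 : S_POL) (h3 : S_DIG) (h4 : S_ONE) (h5 : S_CYC) (n : ℕ)
    (w : List (ℕ × Bool)) (hK : IsKnot n w) (p a : ℕ) (hp : p.Prime) :
    cjones (p ^ a) n w (rt (p ^ a)) ≠ 0 := by
  intro h0
  rcases eq_or_ne p 2 with h2' | h2'
  · subst h2'
    have h6 := key h1 h2 h3 h5 n w hK 1 2 a 1 1 le_rfl Nat.prime_two le_rfl (by norm_num)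
      IsPrimitiveRoot.one (fun hy => ?_) ⟨a + 1, by omega, by ring⟩ (by rw [one_mul]; exact h0)
    · obtain ⟨hy, h7⟩ := h6
      rw [h4] at h7
      have h8 := not_int Nat.prime_two 1 (by simpa using h7)
      norm_num at h8
    · have h7 : Units.mk0 (1 : ℂ) hy = 1 := by ext; simp
      rw [h7]
      refine ⟨one_pow _, one_pow _, fun j h8 h9 => by omega⟩
  · have h6 := t_int h1 h2 h3 h5 n w hK 1 p a le_rfl hp (by
      rw [mul_one]
      intro h
      exact h2' ((Nat.prime_dvd_prime_iff_eq hp Nat.prime_two).1 h)) (by rw [one_mul]; exact h0)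
    rw [h1 1 n w (rt 1) (prim_adm le_rfl (rt_prim le_rfl)), h4] at h6
    have h8 := not_int hp 1 (by simpa using h6)
    have h9 : (p : ℤ) ≤ 1 := Int.le_of_dvd one_pos h8
    have := hp.two_le
    omega

theorem t_fin (h1 : S_CMP) (h2 : S_POL) (h3 : S_DIG) (h5 : S_CYC) (n : ℕ)
    (w : List (ℕ × Bool)) (hK : IsKnot n w) (m : ℕ) (hm : 1 ≤ m)
    (h0 : cjones m n w (rt m) ≠ 0) :
    {p : ℕ | p.Prime ∧ ∃ a : ℕ, cjones (m * p ^ a) n w (rt (m * p ^ a)) = 0}.Finite := by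
  set α := cjones m n w (rt m) with hα
  have hy := rt_prim hm
  have hy0 : rt m ≠ 0 := Complex.exp_ne_zero _
  have hint : IsIntegral ℤ α := by
    obtain ⟨P, M0, hP⟩ := h2 m n w
    have h7 := hP ℂ (Units.mk0 (rt m) hy0)
    rw [← h1 m n w (rt m) (prim_adm hm hy), Units.val_mk0] at h7
    have hyi : IsIntegral ℤ (rt m)⁻¹ := (hy.inv).isIntegral (by omega)
    have h8 : IsIntegral ℤ (Polynomial.aeval (rt m) P) :=
      int_aeval (hy.isIntegral (by omega)) P
    have h9 := h8.mul (hyi.pow M0)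
    rw [← h7] at h9
    have h10 : cjones m n w (rt m) * rt m ^ M0 * (rt m)⁻¹ ^ M0 = α := by
      rw [inv_pow]
      field_simp
      rfl
    rw [h10] at h9
    exact h9
  -- an integral multiple of `α` is a nonzero integer
  obtain ⟨c, γ, hc0, hγ, hc⟩ : ∃ (c : ℤ) (γ : ℂ), c ≠ 0 ∧ IsIntegral ℤ γ ∧ (c : ℂ) = α * γ := by
    refine ⟨(minpoly ℤ α).coeff 0, -Polynomial.aeval α (minpoly ℤ α).divX,
      coeff_ne hint h0, (int_aeval hint _).neg, ?_⟩
    have h11 : Polynomial.aeval α (minpoly ℤ α) = 0 := minpoly.aeval ℤ α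
    nth_rewrite 1 [← Polynomial.divX_mul_X_add (minpoly ℤ α)] at h11
    rw [map_add, map_mul, Polynomial.aeval_X, Polynomial.aeval_C] at h11
    have h12 : (algebraMap ℤ ℂ) ((minpoly ℤ α).coeff 0) = (((minpoly ℤ α).coeff 0 : ℤ) : ℂ) := rfl
    rw [h12] at h11
    linear_combination h11
  refine ((Finset.range (2 * m + 1)).finite_toSet.union
    (Finset.range (c.natAbs + 1)).finite_toSet).subset ?_
  rintro p ⟨hp, a, ha⟩
  by_cases hpm : p ∣ 2 * m
  · left
    have := Nat.le_of_dvd (by omega) hpm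
    simp
    omega
  · right
    have h13 := t_int h1 h2 h3 h5 n w hK m p a hm hp hpm ha
    have h14 := h13.mul hγ
    have h15 : cjones m n w (rt m) / (p : ℂ) * γ = (c : ℂ) / p := by
      rw [hc]; ring
    rw [h15] at h14
    have h16 := not_int hp c h14
    have h17 : p ∣ c.natAbs := Int.natCast_dvd.1 h16
    have := Nat.le_of_dvd (Int.natAbs_pos.2 hc0) h17
    simp
    omega

end Pool.Agent.K7.H32.LV
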