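import Pool.Agent.K7.H32.LV.Nri
import Pool.Agent.K7.H76.LV_DIG
import Pool.Agent.K7.H52.LV_FOU
import Pool.Agent.K7.H52.LV_SIN
import Pool.Agent.K7.H29.LV_CYC
import Pool.Agent.K7.H29.LV_NRM
import Pool.Agent.K7.H94.LV_ENT
import Pool.Agent.K7.H94.LV_AVG
import Pool.Agent.K7.H89.LV_MAP
import Pool.Agent.K7.H97.LV_SUM
import Pool.Agent.K7.H97.LV_CMP

/-! # Project LV: the results -/

set_option autoImplicit false

namespace Pool.Agent.K7.H32.LV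

open Finset Matrix Pool.Agent.H550R3.Jones
open scoped Real

theorem s_cmp : S_CMP := Pool.Agent.K7.H97.LVCMP.t
theorem s_pol : S_POL := Pool.Agent.K7.H89.LVMAP.t_pol Pool.Agent.K7.H89.LVMAP.t_map
theorem s_one : S_ONE := Pool.Agent.K7.H89.LVMAP.t_one
theorem s_dig : S_DIG := Pool.Agent.K7.H76.LVDIG.t
theorem s_cyc : S_CYC := Pool.Agent.K7.H29.LVCYC.t
theorem s_nrm : S_NRM := Pool.Agent.K7.H29.LVNRM.t
theorem s_ent : S_ENT := Pool.Agent.K7.H94.LVENT.t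
theorem s_sum : S_SUM := Pool.Agent.K7.H97.LVSUM.t
theorem s_avg : S_AVG := Pool.Agent.K7.H94.LVAVG.t_avg Pool.Agent.K7.H52.LV.t_sin
theorem s_avz : S_AVZ := Pool.Agent.K7.H94.LVAVG.t_avz Pool.Agent.K7.H52.LV.t_fou s_avg

theorem low : S_LOW := t_low s_cmp s_pol s_nrm s_ent s_sum s_avz

theorem prime_power (n : ℕ) (w : List (ℕ × Bool)) (hK : IsKnot n w) (p a : ℕ) (hp : p.Prime) :
    cjones (p ^ a) n w (rt (p ^ a)) ≠ 0 := t_pp s_cmp s_pol s_dig s_one s_cyc n w hK p a hp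

theorem integral (n : ℕ) (w : List (ℕ × Bool)) (hK : IsKnot n w) (m p a : ℕ) (hm : 1 ≤ m)
    (hp : p.Prime) (hpm : ¬ p ∣ 2 * m) (h0 : cjones (m * p ^ a) n w (rt (m * p ^ a)) = 0) :
    IsIntegral ℤ (cjones m n w (rt m) / (p : ℂ)) :=
  t_int s_cmp s_pol s_dig s_cyc n w hK m p a hm hp hpm h0

theorem bound (n : ℕ) (w : List (ℕ × Bool)) (hK : IsKnot n w) (m p a : ℕ) (hm : 2 ≤ m)
    (hp : p.Prime) (hpm : ¬ p ∣ 2 * m) (h0 : cjones (m * p ^ a) n w (rt (m * p ^ a)) = 0)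
    (hne : cjones m n w (rt m) ≠ 0) :
    Nat.totient (2 * m) * Real.log p ≤ 22 * (n + w.length) * m * (1 + Real.log m) ^ 2 :=
  t_bnd s_cmp s_pol s_dig s_cyc s_nrm t_nri s_ent s_sum s_avz n w hK m p a hm hp hpm h0 hne

end Pool.Agent.K7.H32.LV
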