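import Pool.Agent.K7.H32.LV.Bnd

/-! # Project LV: the norm is an integer (after helper29's LV_NRM) -/

set_option autoImplicit false

namespace Pool.Agent.K7.H32.LV

open Polynomial

theorem nriK (n : ℕ) [NeZero n] (K : Type) [Field K] [NumberField K] [IsCyclotomicExtension {n} ℚ K]
    (P : Polynomial ℤ) (hn : 1 ≤ n) :
    ∃ c : ℤ, ∏ z ∈ primitiveRoots n ℂ, Polynomial.aeval z P = (c : ℂ) := by
  let ζ : K := IsCyclotomicExtension.zeta n ℚ K
  have hζ : IsPrimitiveRoot ζ n := IsCyclotomicExtension.zeta_spec n ℚ K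
  have hirr : Irreducible (cyclotomic n ℚ) := cyclotomic.irreducible_rat (by omega)
  let e := hζ.embeddingsEquivPrimitiveRoots ℂ hirr
  have he : ∀ φ : K →ₐ[ℚ] ℂ, ((e φ : primitiveRoots n ℂ) : ℂ) = φ ζ := fun φ =>
    hζ.embeddingsEquivPrimitiveRoots_apply_coe ℂ hirr φ
  let x : K := aeval ζ P
  have hφ : ∀ φ : K →ₐ[ℚ] ℂ, φ x = aeval (φ ζ) P := by
    intro φ
    have := Polynomial.map_aeval_eq_aeval_map (φ := RingHom.id ℤ) (ψ := (φ : K →+* ℂ)) (by ext; simp) P ζ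
    simpa [x] using this
  have hx : IsIntegral ℤ x := by
    have hz : IsIntegral ℤ ζ := hζ.isIntegral hn
    change IsIntegral ℤ (aeval ζ P)
    rw [aeval_eq_sum_range]
    refine IsIntegral.sum _ fun i _ => ?_
    rw [zsmul_eq_mul]
    exact (isIntegral_algebraMap (R := ℤ) (x := P.coeff i)).mul (hz.pow i)
  have hN : IsIntegral ℤ (Algebra.norm ℚ x) := Algebra.isIntegral_norm ℚ hx
  obtain ⟨m, hm⟩ := IsIntegrallyClosed.isIntegral_iff.mp hN
  have hprod : (algebraMap ℚ ℂ) (Algebra.norm ℚ x) = ∏ φ : K →ₐ[ℚ] ℂ, φ x :=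
    Algebra.norm_eq_prod_embeddings ℚ ℂ x
  refine ⟨m, ?_⟩
  have h1 : ∏ z ∈ primitiveRoots n ℂ, aeval z P = ∏ φ : K →ₐ[ℚ] ℂ, φ x := by
    rw [← Finset.prod_coe_sort (primitiveRoots n ℂ) (fun z => aeval z P)]
    refine (Fintype.prod_equiv e _ _ fun φ => ?_).symm
    rw [hφ, he]
  rw [h1, ← hprod, ← hm]
  simp

theorem t_nri : S_NRI := by
  intro n P hn
  have hn0 : NeZero n := ⟨by omega⟩
  have : NeZero ((n : ℕ) : ℚ) := ⟨by exact_mod_cast hn0.out⟩
  have : IsCyclotomicExtension {n} ℚ (CyclotomicField n ℚ) :=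
    CyclotomicField.isCyclotomicExtension n ℚ
  have : NumberField (CyclotomicField n ℚ) := IsCyclotomicExtension.numberField {n} ℚ _
  exact nriK n (CyclotomicField n ℚ) P hn

end Pool.Agent.K7.H32.LV
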