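import Pool.Agent.H550R3.Jones.Stmts2

/-!
# Project LV: lower bounds and non-vanishing of the Kashaev invariants

The coloured Jones polynomial of a closed braid over an arbitrary commutative ring (`JR`), and the
statements of the jobs. `brf v k = {k}!`, `crossP`, `crossN`, `gen`, `rep`, `tail`, `cjones`, `Adm` are those
of the library `Pool.Agent.H550R3.Jones`.
-/

set_option autoImplicit false

namespace Pool.Agent.K7.H32.LV

open Finset Matrix Pool.Agent.H550R3.Jones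
open scoped Real

section ring

variable {R : Type} [CommRing R]

/-- `{n} = u^n - u^(-n)` -/
def bR (u : Rˣ) (n : ℤ) : R := ((u ^ n : Rˣ) : R) - ((u ^ (-n) : Rˣ) : R)

/-- the Gauss binomial coefficient `{n}! / ({k}! {n-k}!)` -/
def qb (u : Rˣ) : ℕ → ℕ → R
  | _, 0 => 1
  | 0, _ + 1 => 0
  | n + 1, k + 1 => ((u ^ ((k : ℤ) + 1) : Rˣ) : R) * qb u n (k + 1) +
      ((u ^ ((k : ℤ) - n) : Rˣ) : R) * qb u n k

/-- the positive crossing -/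
def cP (N : ℕ) (u : Rˣ) : Matrix (Fin N × Fin N) (Fin N × Fin N) R :=
  fun p q => if (p.1 : ℕ) + p.2 = q.1 + q.2 ∧ (q.2 : ℕ) ≤ p.1 then
    ((u ^ (-((N : ℤ) - 1) * (1 + (q.1 : ℕ) + (q.2 : ℕ)) + 2 * (p.1 : ℕ) * (p.2 : ℕ)) : Rˣ) : R) *
      ((u ^ (((p.1 : ℕ) - q.2) * ((p.1 : ℕ) - q.2 - 1) / 2) : Rˣ) : R) *
      qb u p.1 q.2 *
      ∏ t ∈ range ((p.1 : ℕ) - q.2), bR u ((N : ℤ) - (q.1 : ℕ) + t)
    else 0

/-- the negative crossing -/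
def cN (N : ℕ) (u : Rˣ) : Matrix (Fin N × Fin N) (Fin N × Fin N) R :=
  fun p q => if (p.1 : ℕ) + p.2 = q.1 + q.2 ∧ (q.1 : ℕ) ≤ p.2 then
    (-1) ^ ((p.2 : ℕ) - q.1) *
      ((u ^ (((N : ℤ) - 1) * (1 + (q.1 : ℕ) + (q.2 : ℕ)) - 2 * (q.1 : ℕ) * (q.2 : ℕ)) : Rˣ) : R) *
      (((u ^ (((p.2 : ℕ) - q.1) * ((p.2 : ℕ) - q.1 - 1) / 2))⁻¹ : Rˣ) : R) *
      qb u p.2 q.1 *
      ∏ t ∈ range ((p.2 : ℕ) - q.1), bR u ((N : ℤ) - (q.2 : ℕ) + t)
    else 0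

/-- the braid generator number `k` on `n` strands, by the crossing matrix `A` -/
def genR {ι : Type} [DecidableEq ι] (A : Matrix (ι × ι) (ι × ι) R) (n k : ℕ) :
    Matrix (Fin n → ι) (Fin n → ι) R :=
  fun s t => if h : k + 1 < n then
    (if ∀ j : Fin n, (j : ℕ) ≠ k → (j : ℕ) ≠ k + 1 → s j = t j then
      A (s ⟨k, by omega⟩, s ⟨k + 1, h⟩) (t ⟨k, by omega⟩, t ⟨k + 1, h⟩) else 0)
    else (if s = t then 1 else 0)

/-- the operator of a braid word -/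
def repR {ι : Type} [Fintype ι] [DecidableEq ι] (P Q : Matrix (ι × ι) (ι × ι) R) (n : ℕ)
    (w : List (ℕ × Bool)) : Matrix (Fin n → ι) (Fin n → ι) R :=
  (w.map fun g => genR (if g.2 then P else Q) n g.1).prod

/-- the partial trace -/
def tailR {ι : Type} [Fintype ι] (k : ι → R) (n : ℕ)
    (A : Matrix (Fin (n + 1) → ι) (Fin (n + 1) → ι) R) : Matrix ι ι R :=
  fun i j => ∑ s : Fin n → ι, (∏ x, k (s x)) * A (Fin.cons i s) (Fin.cons j s)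

/-- the coloured Jones polynomial of a closed braid, over `R`, at the unit `u` -/
def JR (N n : ℕ) (w : List (ℕ × Bool)) (u : Rˣ) : R :=
  if h : 0 < N then
    tailR (fun x : Fin N => ((u ^ ((N : ℤ) - 1 - 2 * (x : ℕ)) : Rˣ) : R)) n
      (repR (cP N u) (cN N u) (n + 1) w) ⟨0, h⟩ ⟨0, h⟩ else 0

end ring

/-- the transposition of the strands `k`, `k + 1` -/
def sw (n k : ℕ) : Equiv.Perm (Fin n) :=
  if h : k + 1 < n then Equiv.swap ⟨k, by omega⟩ ⟨k + 1, h⟩ else 1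

/-- the permutation of a braid word -/
def pm (n : ℕ) (w : List (ℕ × Bool)) : Equiv.Perm (Fin n) := (w.map fun g => sw n g.1).prod

/-- the closure of the braid word `w` on `n + 1` strands is a knot -/
def IsKnot (n : ℕ) (w : List (ℕ × Bool)) : Prop :=
  ∀ i : Fin (n + 1), ∃ k : ℕ, ((pm (n + 1) w) ^ k) 0 = i

/-- MAP: functoriality -/
def S_MAP : Prop := ∀ (R S : Type) [CommRing R] [CommRing S] (f : R →+* S) (u : Rˣ) (N n : ℕ)
  (w : List (ℕ × Bool)), f (JR N n w u) = JR N n w (Units.map (f : R →* S) u)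

/-- CMP: comparison with `cjones` -/
def S_CMP : Prop := ∀ (N n : ℕ) (w : List (ℕ × Bool)) (v : ℂ) (hv : Adm N v),
  cjones N n w v = JR N n w (Units.mk0 v hv.1)

/-- POL: `JR` is given by one integral Laurent polynomial (from MAP) -/
def S_POL : Prop := ∀ (N n : ℕ) (w : List (ℕ × Bool)), ∃ (P : Polynomial ℤ) (M : ℕ),
  ∀ (R : Type) [CommRing R] (u : Rˣ),
    JR N n w u * (u : R) ^ M = Polynomial.aeval (u : R) P

/-- DIG: reduction of the colour for knots -/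
def S_DIG : Prop := ∀ (m s n : ℕ) (w : List (ℕ × Bool)), IsKnot n w → 1 ≤ m → 1 ≤ s →
  ∀ (R : Type) [CommRing R] [IsDomain R] (u : Rˣ), u ^ (2 * m) = 1 → u ^ (m * (s - 1)) = 1 →
    (∀ k : ℕ, 0 < k → k < m → bR u k ≠ 0) → JR (m * s) n w u = JR m n w u

/-- ONE: the colour `1` -/
def S_ONE : Prop := ∀ (n : ℕ) (w : List (ℕ × Bool)) (R : Type) [CommRing R] (u : Rˣ),
  JR 1 n w u = 1

/-- NRM: the norm of a nonzero algebraic integer -/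
def S_NRM : Prop := ∀ (n : ℕ) (P : Polynomial ℤ), 1 ≤ n →
  (∃ z ∈ primitiveRoots n ℂ, Polynomial.aeval z P ≠ 0) →
    1 ≤ ∏ z ∈ primitiveRoots n ℂ, ‖Polynomial.aeval z P‖

/-- CYC: zeros at a primitive root of order `n p^a` give divisibility by `p` at order `n` -/
def S_CYC : Prop := ∀ (n p a : ℕ) (P : Polynomial ℤ) (z y : ℂ), 1 ≤ n → p.Prime → ¬ p ∣ n → 1 ≤ a →
  IsPrimitiveRoot z (n * p ^ a) → IsPrimitiveRoot y n → Polynomial.aeval z P = 0 →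
    IsIntegral ℤ (Polynomial.aeval y P / (p : ℂ))

/-- ENT: the entries of the crossings at a root of unity -/
def S_ENT : Prop := ∀ (N : ℕ) (z : ℂ) (M : ℝ), 1 ≤ N → z ^ (2 * N) = 1 →
  (∀ k : ℕ, k < N → brf z k ≠ 0 ∧ |Real.log ‖brf z k‖| ≤ M) → ∀ p q : Fin N × Fin N,
    ‖crossP N z p q‖ ≤ Real.exp (5 * M) ∧ ‖crossN N z p q‖ ≤ Real.exp (5 * M)

/-- SUM: the trivial bound of the state sum -/
def S_SUM : Prop := ∀ (N n : ℕ) (w : List (ℕ × Bool)) (z : ℂ) (E : ℝ), 1 ≤ N → ‖z‖ = 1 → 1 ≤ E →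
  (∀ p q : Fin N × Fin N, ‖crossP N z p q‖ ≤ E ∧ ‖crossN N z p q‖ ≤ E) →
    ‖cjones N n w z‖ ≤ (N : ℝ) ^ n * (N * E) ^ w.length

/-- `|sin (π h k / N)|` -/
noncomputable def sn (N k h : ℕ) : ℝ := |Real.sin (π * (h * k / N))|

/-- `∏_{j ≤ n} |2 sin (π j k / N)|` -/
noncomputable def Fk (N k n : ℕ) : ℝ := ∏ j ∈ range n, (2 * sn N k (j + 1))

/-- the bound for `|log Fk|` -/
noncomputable def Mk (N k : ℕ) : ℝ := 2 * (1 + Real.log N) +
  ∑' h : ℕ, if N ∣ h + 1 then 0 else (1 - 1 / (N : ℝ)) ^ (h + 1) / ((h : ℝ) + 1) * (1 / sn N k (h + 1))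

/-- FOU: partial products of sines -/
def S_FOU : Prop := ∀ N k : ℕ, 2 ≤ N → k.Coprime N → ∀ n : ℕ, n < N →
  |Real.log (Fk N k n)| ≤ Mk N k

/-- SIN: a cosecant sum -/
def S_SIN : Prop := ∀ N h : ℕ, 2 ≤ N → ¬ N ∣ h →
  ∑ k ∈ (range N).filter (fun k => k.Coprime N), 1 / sn N k h ≤ N * (1 + Real.log N)

/-- AVG: the average of the bounds (from SIN) -/
def S_AVG : Prop := ∀ N : ℕ, 2 ≤ N → (∀ k : ℕ, k.Coprime N → 0 ≤ Mk N k) ∧
  ∑ k ∈ (range N).filter (fun k => k.Coprime N), Mk N k ≤ 2 * N * (1 + Real.log N) ^ 2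

/-- AVZ: the same on the primitive roots of unity (from FOU and AVG) -/
def S_AVZ : Prop := ∀ N : ℕ, 2 ≤ N → ∃ M : ℂ → ℝ,
  (∀ z ∈ primitiveRoots (2 * N) ℂ, 0 ≤ M z ∧
    ∀ n : ℕ, n < N → brf z n ≠ 0 ∧ |Real.log ‖brf z n‖| ≤ M z) ∧
  ∑ z ∈ primitiveRoots (2 * N) ℂ, M z ≤ 4 * N * (1 + Real.log N) ^ 2

/-- `exp (π i / N)` -/
noncomputable def rt (N : ℕ) : ℂ := Complex.exp (Real.pi * Complex.I / N)

/-- LOW: the lower bound -/
def S_LOW : Prop := ∀ (N n : ℕ) (w : List (ℕ × Bool)), 2 ≤ N → cjones N n w (rt N) ≠ 0 →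
  -(22 * (n + w.length) * N * (1 + Real.log N) ^ 2) ≤ Real.log ‖cjones N n w (rt N)‖

/-- NV: non-vanishing for knots -/
def S_NV : Prop := ∀ (n : ℕ) (w : List (ℕ × Bool)), IsKnot n w →
  (∀ a : ℕ, cjones (2 ^ a) n w (rt (2 ^ a)) ≠ 0) ∧
  ∀ (m p a : ℕ), 1 ≤ m → p.Prime → p ≠ 2 → ¬ p ∣ m →
    ¬ IsIntegral ℤ (cjones m n w (rt m) / (p : ℂ)) →
    cjones (m * p ^ a) n w (rt (m * p ^ a)) ≠ 0

end Pool.Agent.K7.H32.LV
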